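import Pool.Agent.MWFE.StmtsB

/-!
# MWFE, row BLN: block `0` is determined by the order, the labels and the number of `z`
-/

set_option autoImplicit false

namespace Pool.Agent.MWFE.H25

open Pool.Agent.Helper14_MV Pool.Agent.Helper2_MV Pool.Agent.MVD
open Pool.Agent.MWE (Can XX fxy dxy dx dy up cp L4 pr Xs xl isx Fs nd nr)
open Pool.Agent.MWGR (cb)

theorem tr {β : FIC} {u v w : List ℕ} (h1 : RR β u v) (h2 : RR β v w) : RR β u w := β.trans h1 h2

/-- the word with the two tokens -/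
def T2 (p q : List ℕ) (z v1 v2 i0 i1 i2 : ℕ) : List ℕ :=
  p ++ (List.replicate i0 z ++ v1 :: (List.replicate i1 z ++ v2 :: (List.replicate i2 z ++ q)))

theorem ins {n : ℕ} {β : FIC} (hz : Hz n β) (p q : List ℕ) (z v1 v2 i0 i1 i2 : ℕ) (h1 : v1 ∈ q)
    (h2 : v2 ∈ q) (a0 : 1 ≤ i0) (a2 : 1 ≤ i2) :
    RR β (T2 p q z v1 v2 i0 i1 i2) (T2 p q z v1 v2 i0 (n + i1) i2) := by
  obtain ⟨a, rfl⟩ : ∃ a, i0 = a + 1 := ⟨i0 - 1, by omega⟩
  obtain ⟨b, rfl⟩ : ∃ b, i2 = b + 1 := ⟨i2 - 1, by omega⟩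
  have e : ∀ L : List ℕ, p ++ (List.replicate (a + 1) z ++ v1 :: (L ++ v2 ::
      (List.replicate (b + 1) z ++ q))) =
      (p ++ List.replicate a z) ++ z :: ([v1] ++ (L ++ ([v2] ++ z :: (List.replicate b z ++ q)))) := by
    intro L
    have e1 : List.replicate (a + 1) z = List.replicate a z ++ [z] := List.replicate_succ'
    rw [e1, List.replicate_succ]
    simp [List.append_assoc]
  have hq : ∀ v, v ∈ q → 1 ≤ q.count v := fun v hv => List.count_pos_iff.2 hv
  have h := hz.it (p ++ List.replicate a z) [v1] (List.replicate i1 z ++ [v2])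
    (List.replicate b z ++ q) z (by
      intro c hc
      simp only [List.cons_append, List.nil_append, List.mem_cons, List.mem_append,
        List.mem_replicate, List.not_mem_nil, or_false] at hc
      rcases hc with hc | hc | hc
      · subst hc
        have := hq _ h1
        simp only [List.count_append, List.count_cons, beq_self_eq_true, ↓reduceIte]
        omega
      · obtain ⟨_, rfl⟩ := hc
        simp only [List.count_append, List.count_cons, beq_self_eq_true, ↓reduceIte]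
        omega
      · subst hc
        have := hq _ h2
        simp only [List.count_append, List.count_cons, beq_self_eq_true, ↓reduceIte]
        omega)
  have e2 := e (List.replicate n z ++ List.replicate i1 z)
  rw [← List.replicate_add n i1 z] at e2
  unfold T2
  rw [e, e2, List.replicate_add n i1 z]
  simpa [List.append_assoc, -List.replicate_append_replicate] using h

/-- the two tokens between occurrences of `z` -/
theorem core (hcro : CroStmt) (hlqr : LqrStmt) {n : ℕ} {β : FIC} (hz : Hz n β) (p q : List ℕ)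
    (z v1 v2 i0 i1 i2 j0 j1 j2 : ℕ) (h1 : v1 ∈ q) (h2 : v2 ∈ q) (a0 : 1 ≤ i0) (a2 : 1 ≤ i2)
    (b0 : 1 ≤ j0) (b2 : 1 ≤ j2) (l1 : Lq n β i0 j0) (l2 : Lq n β (i0 + i1) (j0 + j1))
    (ht : i0 + i1 + i2 ≡ j0 + j1 + j2 [MOD n]) :
    RR β (T2 p q z v1 v2 i0 i1 i2) (T2 p q z v1 v2 j0 j1 j2) := by
  have hn : 1 ≤ n := le_trans (by norm_num) hz.n2
  obtain ⟨r1, r2, r3, r4, r5⟩ := hlqr n β hz
  obtain ⟨l, hl1, hl2⟩ : ∃ l, 1 ≤ l ∧ j0 + l ≡ i0 + (n + i1) [MOD n] := by
    refine ⟨i0 + (n + i1) + (n - 1) * j0, by omega, ?_⟩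
    have e : j0 + (i0 + (n + i1) + (n - 1) * j0) = i0 + (n + i1) + n * j0 := by
      obtain ⟨k, rfl⟩ : ∃ k, n = k + 1 := ⟨n - 1, by omega⟩
      simp only [Nat.add_sub_cancel]
      ring
    rw [e]
    exact Nat.modEq_iff_dvd.2 ⟨-(j0 : ℤ), by push_cast; ring⟩
  have hni : i0 + (n + i1) ≡ i0 + i1 [MOD n] :=
    Nat.modEq_iff_dvd.2 ⟨-1, by push_cast; ring⟩
  have hnj : j0 + (n + j1) ≡ j0 + j1 [MOD n] :=
    Nat.modEq_iff_dvd.2 ⟨-1, by push_cast; ring⟩
  -- first token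
  have s1 : RR β (T2 p q z v1 v2 i0 (n + i1) i2) (T2 p q z v1 v2 j0 l i2) := by
    obtain ⟨Ta, Tb, rfl⟩ := List.append_of_mem h1
    have h := hcro n β i0 j0 l1 p (v2 :: (List.replicate i2 z ++ Ta)) Tb z v1 i0 j0 (n + i1) l rfl rfl
      hl2.symm a0 b0 (by omega) hl1
    simpa [T2, List.append_assoc] using h
  -- second token
  have l3 : Lq n β l (n + j1) := by
    rw [r5 l (n + j1) j0]
    refine r4 _ _ _ _ ?_ ?_ l2
    · rw [Nat.add_comm l j0]
      exact (hl2.trans hni).symm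
    · rw [Nat.add_comm (n + j1) j0]
      exact hnj.symm
  have ht2 : l + i2 ≡ n + j1 + j2 [MOD n] := by
    have e1 : j0 + (l + i2) ≡ j0 + (n + j1 + j2) [MOD n] := by
      have e2 : j0 + l + i2 ≡ i0 + i1 + i2 [MOD n] := (hl2.trans hni).add_right i2
      have e3 : j0 + (n + j1) + j2 ≡ j0 + j1 + j2 [MOD n] := hnj.add_right j2
      have e4 := (e2.trans ht).trans e3.symm
      rw [show j0 + (l + i2) = j0 + l + i2 by ring,
        show j0 + (n + j1 + j2) = j0 + (n + j1) + j2 by ring]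
      exact e4
    exact Nat.ModEq.add_left_cancel' j0 e1
  have s2 : RR β (T2 p q z v1 v2 j0 l i2) (T2 p q z v1 v2 j0 (n + j1) j2) := by
    obtain ⟨Ta, Tb, rfl⟩ := List.append_of_mem h2
    have h := hcro n β l (n + j1) l3 (p ++ (List.replicate j0 z ++ [v1])) Ta Tb z v2 l (n + j1) i2 j2
      rfl rfl ht2 hl1 (by omega) a2 b2
    simpa [T2, List.append_assoc] using h
  exact tr (ins hz p q z v1 v2 i0 i1 i2 h1 h2 a0 a2)
    (tr s1 (tr s2 (ins hz p q z v1 v2 j0 j1 j2 h1 h2 b0 b2).symm))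

/-- `0`, `3` or `z` -/
def P3z (z : ℕ) : ℕ → Bool := fun a => decide (a = 0 ∨ a = 3 ∨ a = z)

theorem filt_z {z : ℕ} (l : List ℕ) (h0 : 0 ∉ l) (h3 : 3 ∉ l) :
    l.filter (P3z z) = List.replicate (l.count z) z := by
  rw [← List.filter_eq z]
  refine List.filter_congr fun a ha => ?_
  have h1 : a ≠ 0 := fun h => h0 (h ▸ ha)
  have h2 : a ≠ 3 := fun h => h3 (h ▸ ha)
  simp [P3z, h1, h2]

/-- the two tokens in a block -/
theorem dec {z : ℕ} {D : List ℕ} {v1 v2 : ℕ} (hv : (v1 = 0 ∧ v2 = 3) ∨ (v1 = 3 ∧ v2 = 0))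
    (hz0 : z ≠ 0) (hz3 : z ≠ 3) (hD : fxy D = [v1, v2]) :
    ∃ i0 i1 i2, cb D z v1 = i0 ∧ cb D z v2 = i0 + i1 ∧ D.count z = i0 + i1 + i2 ∧
      D.filter (P3z z) = List.replicate i0 z ++ v1 :: (List.replicate i1 z ++ v2 ::
        List.replicate i2 z) := by
  unfold fxy at hD
  obtain ⟨A, D1, rfl, hA, hv1, hD1⟩ := List.filter_eq_cons_iff.1 hD
  obtain ⟨B, C, rfl, hB, hv2, hC⟩ := List.filter_eq_cons_iff.1 hD1
  rw [List.filter_eq_nil_iff] at hC
  have nA : 0 ∉ A ∧ 3 ∉ A := ⟨fun h => hA 0 h (by simp), fun h => hA 3 h (by simp)⟩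
  have nB : 0 ∉ B ∧ 3 ∉ B := ⟨fun h => hB 0 h (by simp), fun h => hB 3 h (by simp)⟩
  have nC : 0 ∉ C ∧ 3 ∉ C := ⟨fun h => hC 0 h (by simp), fun h => hC 3 h (by simp)⟩
  have hv12 : v1 ≠ v2 := by rcases hv with ⟨rfl, rfl⟩ | ⟨rfl, rfl⟩ <;> norm_num
  have hz1 : v1 ≠ z := by rcases hv with ⟨rfl, rfl⟩ | ⟨rfl, rfl⟩ <;> exact Ne.symm ‹_›
  have hz2 : v2 ≠ z := by rcases hv with ⟨rfl, rfl⟩ | ⟨rfl, rfl⟩ <;> exact Ne.symm ‹_›
  have m1 : ∀ L : List ℕ, 0 ∉ L ∧ 3 ∉ L → v1 ∉ L := by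
    intro L hL
    rcases hv with ⟨rfl, rfl⟩ | ⟨rfl, rfl⟩
    · exact hL.1
    · exact hL.2
  have m2 : ∀ L : List ℕ, 0 ∉ L ∧ 3 ∉ L → v2 ∉ L := by
    intro L hL
    rcases hv with ⟨rfl, rfl⟩ | ⟨rfl, rfl⟩
    · exact hL.2
    · exact hL.1
  have hp1 : P3z z v1 = true := by
    rcases hv with ⟨rfl, rfl⟩ | ⟨rfl, rfl⟩ <;> simp [P3z]
  have hp2 : P3z z v2 = true := by
    rcases hv with ⟨rfl, rfl⟩ | ⟨rfl, rfl⟩ <;> simp [P3z]
  have ht : ∀ (L M : List ℕ) (v : ℕ), v ∉ L →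
      (L ++ v :: M).takeWhile (fun c => decide (c ≠ v)) = L := by
    intro L M v hL
    rw [List.takeWhile_append_of_pos]
    · simp
    · intro c hc
      have : c ≠ v := fun h => hL (h ▸ hc)
      simp [this]
  refine ⟨A.count z, B.count z, C.count z, ?_, ?_, ?_, ?_⟩
  · unfold cb
    rw [ht _ _ _ (m1 A nA)]
  · unfold cb
    have e : A ++ v1 :: (B ++ v2 :: C) = (A ++ v1 :: B) ++ v2 :: C := by simp
    rw [e, ht _ _ _ (by
      simp only [List.mem_append, List.mem_cons, not_or]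
      exact ⟨m2 A nA, Ne.symm hv12, m2 B nB⟩)]
    rw [List.count_append, List.count_cons_of_ne hz1]
  · rw [List.count_append, List.count_cons_of_ne hz1, List.count_append, List.count_cons_of_ne hz2]
    omega
  · rw [List.filter_append, List.filter_cons_of_pos hp1, List.filter_append,
      List.filter_cons_of_pos hp2, filt_z A nA.1 nA.2, filt_z B nB.1 nB.2, filt_z C nC.1 nC.2]

theorem fxy_two {D : List ℕ} (h0 : D.count 0 = 1) (h3 : D.count 3 = 1) :
    ∃ v1 v2, ((v1 = 0 ∧ v2 = 3) ∨ (v1 = 3 ∧ v2 = 0)) ∧ fxy D = [v1, v2] := by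
  have c0 : (fxy D).count 0 = 1 := by
    unfold fxy
    rw [List.count_filter (by simp), h0]
  have c3 : (fxy D).count 3 = 1 := by
    unfold fxy
    rw [List.count_filter (by simp), h3]
  have hm : ∀ a ∈ fxy D, a = 0 ∨ a = 3 := by
    intro a ha
    have := (List.mem_filter.1 ha).2
    simpa using this
  have hp : (fxy D).Perm [0, 3] := by
    rw [List.perm_iff_count]
    intro a
    by_cases h1 : a = 0
    · subst h1
      rw [c0]
      rfl
    · by_cases h2 : a = 3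
      · subst h2
        rw [c3]
        rfl
      · rw [List.count_eq_zero_of_not_mem fun h => by rcases hm a h with h | h <;> contradiction,
          List.count_eq_zero_of_not_mem (by simp [h1, h2])]
  obtain ⟨a, b, hab⟩ := List.length_eq_two.1 hp.length_eq
  rw [hab] at c0 c3 hm
  have ha := hm a (by simp)
  have hb := hm b (by simp)
  refine ⟨a, b, ?_, hab⟩
  rcases ha with rfl | rfl <;> rcases hb with rfl | rfl <;> simp at c0 c3 ⊢

theorem bln (_hpwl : PwlStmt) (_hfil : FilStmt) (hcro : CroStmt) (hlqr : LqrStmt) (hupz : UpzStmt)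
    (hpmz : PmzStmt) : BlnStmt := by
  intro n β m R c B e hz hc hR hb hB D hD hf hd hl ht k1 k2
  obtain ⟨v1, v2, hv, hX⟩ := fxy_two hB.x0 hB.y0
  have hz0 : 3 * m + 1 ≠ 0 := by omega
  have hz3 : 3 * m + 1 ≠ 3 := by omega
  obtain ⟨i0, i1, i2, a1, a2, a3, a4⟩ := dec hv hz0 hz3 hX
  obtain ⟨j0, j1, j2, b1, b2, b3, b4⟩ := dec (D := D) hv hz0 hz3 (hf.trans hX)
  have hv1 : v1 = 0 ∨ v1 = 3 := by rcases hv with ⟨rfl, _⟩ | ⟨rfl, _⟩ <;> simp
  have hv2 : v2 = 0 ∨ v2 = 3 := by rcases hv with ⟨_, rfl⟩ | ⟨_, rfl⟩ <;> simp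
  -- the local letters
  set F := (B 0).filter (fun a => !P3z (3 * m + 1) a) with hF
  have hF3 : F.filter (P3z (3 * m + 1)) = [] := by
    rw [List.filter_eq_nil_iff]
    intro a ha
    have := (List.mem_filter.1 ha).2
    simpa using this
  have hFp : (D.filter (fun a => !P3z (3 * m + 1) a)).Perm F := by
    have h1 := hd.filter (fun a => !P3z (3 * m + 1) a)
    have h2 : ∀ L : List ℕ, (dz (3 * m + 1) L).filter (fun a => !P3z (3 * m + 1) a) =
        L.filter (fun a => !P3z (3 * m + 1) a) := by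
      intro L
      unfold dz
      rw [List.filter_filter]
      refine List.filter_congr fun a _ => ?_
      by_cases h : a = 3 * m + 1 <;> simp [P3z, h]
    rw [h2, h2] at h1
    exact h1
  have hff : ∀ L : List ℕ, (L.filter (P3z (3 * m + 1)) ++ F).filter (P3z (3 * m + 1)) =
      L.filter (P3z (3 * m + 1)) := by
    intro L
    rw [List.filter_append, hF3, List.append_nil, List.filter_filter]
    simp
  have q1 := hpmz n β m R c B e hz hc hR hb hB ((B 0).filter (P3z (3 * m + 1)) ++ F)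
    (List.filter_append_perm _ _) (hff (B 0))
  have hcnt : 2 ≤ D.count (3 * m + 1) := by
    have := k2 0 (Or.inl rfl)
    omega
  have hB' : Bfz m R c (up B 0 D) e := ((hupz m R c B e hR).2.2 D hD hd hcnt).2 hB
  have e0 : (up B 0 D) 0 = D := by simp [up]
  have q2 := hpmz n β m R c (up B 0 D) e hz hc hR hb hB' (D.filter (P3z (3 * m + 1)) ++ F)
    (by
      rw [e0]
      exact ((hFp.symm).append_left _).trans (List.filter_append_perm _ _))
    (by
      rw [e0]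
      exact hff D)
  have e3 : ∀ X : List ℕ, up (up B 0 D) 0 X = up B 0 X := by
    intro X
    funext q
    unfold up
    split_ifs <;> rfl
  rw [e3] at q2
  refine tr q1 (tr ?_ q2.symm)
  -- the word around block `0`
  obtain ⟨R1, R2, R3, rfl⟩ := hb
  have hnd : (R1 ++ 0 :: (R2 ++ 1 :: R3)).Nodup := hR.nodup_iff.2 List.nodup_range
  have n1 : 0 ∉ R1 := by
    intro h
    rw [List.nodup_append] at hnd
    exact hnd.2.2 0 h 0 (by simp) rfl
  have n2 : 0 ∉ R2 ++ 1 :: R3 := by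
    rw [List.nodup_append] at hnd
    exact (List.nodup_cons.1 hnd.2.1).1
  have hup : ∀ (X : List ℕ) (S : List ℕ), 0 ∉ S → Bw S (up B 0 X) = Bw S B := by
    intro X S hS
    unfold Bw
    refine List.flatMap_congr fun r hr => ?_
    have : r ≠ 0 := fun h => hS (h ▸ hr)
    simp [up, this]
  have hw : ∀ X : List ℕ, Bw (R1 ++ 0 :: (R2 ++ 1 :: R3)) (up B 0 X) ++ e =
      Bw R1 B ++ (X ++ (2 :: (Bw (R2 ++ 1 :: R3) B ++ e))) := by
    intro X
    have h1 : Bw (R1 ++ 0 :: (R2 ++ 1 :: R3)) (up B 0 X) = Bw R1 (up B 0 X) ++ (X ++ [2] ++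
        Bw (R2 ++ 1 :: R3) (up B 0 X)) := by
      simp [Bw, up]
    rw [h1, hup X R1 n1, hup X _ n2]
    simp
  have hin : ∀ v, (v = 0 ∨ v = 3) → v ∈ F ++ (2 :: (Bw (R2 ++ 1 :: R3) B ++ e)) := by
    intro v hv
    have h1 : v ∈ B 1 := by
      rcases hv with rfl | rfl
      · exact List.count_pos_iff.1 (by rw [hB.x1]; norm_num)
      · exact List.count_pos_iff.1 (by rw [hB.y1]; norm_num)
    simp [Bw, h1]
  have hco := core hcro hlqr hz (Bw R1 B) (F ++ (2 :: (Bw (R2 ++ 1 :: R3) B ++ e))) (3 * m + 1)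
    v1 v2 i0 i1 i2 j0 j1 j2 (hin _ hv1) (hin _ hv2)
    (by have := (k1 v1 hv1).1; omega) (by have := (k1 v2 hv2).2; omega)
    (by have := (k2 v1 hv1).1; omega) (by have := (k2 v2 hv2).2; omega)
    (by have := hl v1 hv1; rwa [a1, b1] at this) (by have := hl v2 hv2; rwa [a2, b2] at this)
    (by rwa [a3, b3] at ht)
  rw [hw, hw, a4, b4]
  simpa [T2, List.append_assoc] using hco

end Pool.Agent.MWFE.H25
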